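import Mathlib

/-! Project CD (MP_cbedb1_nt): `2 ^ (s(3n) + 1) (2n - 1) C(3n, n)` divides the self-convolution. -/

set_option autoImplicit false

namespace Pool.Agent.J4H62.CD

/-- `C(6k, 3k) C(3k, k)` -/
def a (k : ℕ) : ℕ := (6 * k).choose (3 * k) * (3 * k).choose k

def L (q i j : ℕ) : ℕ :=
  (3 * j) / q + (2 * j) / q + j / q + (3 * i) / q + (2 * i) / q + i / q + (3 * (i + j)) / q

def R (q i j : ℕ) : ℕ := (6 * j) / q + (6 * i) / q + (2 * (i + j)) / q + (i + j) / q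

/-- put `j = q J + x`, `i = q I + y`; with `F x = ⌊6x/q⌋ - ⌊3x/q⌋ - ⌊2x/q⌋` (`0` only if `6x < q`) -/
def S_FL : Prop := ∀ q i j : ℕ, 1 ≤ q → L q i j ≤ R q i j

def S_FG : Prop := ∀ q i j : ℕ, 3 < q → 1 ≤ i + j → q ∣ 2 * (i + j) - 1 → L q i j + 1 ≤ R q i j

def S_T1 : Prop := ∀ i j : ℕ, 1 ≤ i + j → 3 ∣ 2 * (i + j) - 1 →
  3 ∣ j ∨ 3 ∣ i ∨ L 3 i j + 1 ≤ R 3 i j

/-- `x = 0, q, 2q` modulo `3q` -/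
def S_T2 : Prop := ∀ q i j : ℕ, 3 ≤ q → 1 ≤ i + j → 3 * q ∣ 2 * (i + j) - 1 → q ∣ j →
  3 * q ∣ j ∨ L (3 * q) i j + 2 ≤ R (3 * q) i j

def S_T3 : Prop := ∀ q i j : ℕ, 3 ≤ q → 1 ≤ i + j → q ∣ 2 * (i + j) - 1 →
  ¬ 3 * q ∣ 2 * (i + j) - 1 → q ∣ j → L (3 * q) i j + 1 ≤ R (3 * q) i j

/-- from `FL, FG, T1, T2, T3` (`L`, `R` are symmetric in `i, j`) -/
def S_SUM : Prop := ∀ i j c B : ℕ, 1 ≤ i + j → 3 ^ c ∣ 2 * (i + j) - 1 →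
  ¬ 3 ^ (c + 1) ∣ 2 * (i + j) - 1 → c + 1 < B →
  (∑ b ∈ Finset.Ico 1 B, L (3 ^ b) i j) + c ≤ ∑ b ∈ Finset.Ico 1 B, R (3 ^ b) i j

/-- Legendre: `a j a i (3n)! (3j)! ... = (6j)! (6i)! (2n)! n!` etc. -/
def S_DIV : Prop := ∀ i j : ℕ, 1 ≤ i + j →
  (2 * (i + j) - 1) * (3 * (i + j)).choose (i + j) ∣ a i * a j

end Pool.Agent.J4H62.CD
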