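import Pool.Agent.J4H62.CD.Stm

/-! Project CD: pieces T1, T2, T3. -/

set_option autoImplicit false

namespace Pool.Agent.J4H62.CD

theorem t_T1 : S_T1 := by
  intro i j h1 h2
  by_cases hj : 3 ∣ j
  · exact Or.inl hj
  by_cases hi : 3 ∣ i
  · exact Or.inr (Or.inl hi)
  right; right
  obtain ⟨J, hJ⟩ : ∃ J, j = 3 * J + 1 := ⟨j / 3, by omega⟩
  obtain ⟨I, hI⟩ : ∃ I, i = 3 * I + 1 := ⟨i / 3, by omega⟩
  subst hJ hI
  unfold L R
  omega

theorem L_red {Q : ℕ} (hQ : 0 < Q) (I J x y : ℕ) :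
    L Q (Q * I + y) (Q * J + x) = 9 * (I + J) + L Q y x := by
  unfold L
  rw [show 3 * (Q * J + x) = Q * (3 * J) + 3 * x by ring,
    show 2 * (Q * J + x) = Q * (2 * J) + 2 * x by ring,
    show 3 * (Q * I + y) = Q * (3 * I) + 3 * y by ring,
    show 2 * (Q * I + y) = Q * (2 * I) + 2 * y by ring,
    show 3 * (Q * I + y + (Q * J + x)) = Q * (3 * (I + J)) + 3 * (y + x) by ring]
  simp only [Nat.mul_add_div hQ]
  ring

theorem R_red {Q : ℕ} (hQ : 0 < Q) (I J x y : ℕ) :
    R Q (Q * I + y) (Q * J + x) = 9 * (I + J) + R Q y x := by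
  unfold R
  rw [show 6 * (Q * J + x) = Q * (6 * J) + 6 * x by ring,
    show 6 * (Q * I + y) = Q * (6 * I) + 6 * y by ring,
    show 2 * (Q * I + y + (Q * J + x)) = Q * (2 * (I + J)) + 2 * (y + x) by ring,
    show Q * I + y + (Q * J + x) = Q * (I + J) + (y + x) by ring]
  simp only [Nat.mul_add_div hQ]
  ring

theorem ineq {Q y x g : ℕ} (hQ : 0 < Q) (v1 v2 v3 w1 w2 w3 c3 v6 w6 c2 c1 : ℕ)
    (h1 : 3 * x < (v1 + 1) * Q) (h2 : 2 * x < (v2 + 1) * Q) (h3 : x < (v3 + 1) * Q)
    (h4 : 3 * y < (w1 + 1) * Q) (h5 : 2 * y < (w2 + 1) * Q) (h6 : y < (w3 + 1) * Q)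
    (h7 : 3 * (y + x) < (c3 + 1) * Q) (k1 : v6 * Q ≤ 6 * x) (k2 : w6 * Q ≤ 6 * y)
    (k3 : c2 * Q ≤ 2 * (y + x)) (k4 : c1 * Q ≤ y + x)
    (hg : v1 + v2 + v3 + w1 + w2 + w3 + c3 + g ≤ v6 + w6 + c2 + c1) :
    L Q y x + g ≤ R Q y x := by
  unfold L R
  have e1 := (Nat.div_lt_iff_lt_mul hQ).2 h1
  have e2 := (Nat.div_lt_iff_lt_mul hQ).2 h2
  have e3 := (Nat.div_lt_iff_lt_mul hQ).2 h3
  have e4 := (Nat.div_lt_iff_lt_mul hQ).2 h4
  have e5 := (Nat.div_lt_iff_lt_mul hQ).2 h5
  have e6 := (Nat.div_lt_iff_lt_mul hQ).2 h6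
  have e7 := (Nat.div_lt_iff_lt_mul hQ).2 h7
  have f1 := (Nat.le_div_iff_mul_le hQ).2 k1
  have f2 := (Nat.le_div_iff_mul_le hQ).2 k2
  have f3 := (Nat.le_div_iff_mul_le hQ).2 k3
  have f4 := (Nat.le_div_iff_mul_le hQ).2 k4
  omega

theorem red {Q i j : ℕ} (hQ : 0 < Q) {I J x y g : ℕ} (hi : i = Q * I + y) (hj : j = Q * J + x)
    (h : L Q y x + g ≤ R Q y x) : L Q i j + g ≤ R Q i j := by
  subst hi hj
  rw [L_red hQ, R_red hQ]
  omega

theorem t_T2 : S_T2 := by
  intro q i j hq h1 h2 h3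
  by_cases h4 : 3 * q ∣ j
  · exact Or.inl h4
  right
  obtain ⟨c, hc⟩ := h3
  have hQ : 0 < 3 * q := by omega
  obtain ⟨y, I, hy, hi⟩ : ∃ y I, y < 3 * q ∧ i = 3 * q * I + y :=
    ⟨i % (3 * q), i / (3 * q), Nat.mod_lt _ hQ, (Nat.div_add_mod i (3 * q)).symm⟩
  obtain ⟨J, c0, hc0, hcJ⟩ : ∃ J c0, c0 < 3 ∧ c = 3 * J + c0 := ⟨c / 3, c % 3, by omega, by omega⟩
  have hj : j = 3 * q * J + q * c0 := by rw [hc, hcJ]; ring
  obtain ⟨d, hd⟩ := h2
  have hd1 : 2 * (3 * q * (I + J)) + 2 * (y + q * c0) = 3 * q * d + 1 := by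
    have : 2 * (i + j) = 3 * q * d + 1 := by omega
    rw [← this, hi, hj]; ring
  have hde : 2 * (I + J) ≤ d := by
    by_contra hlt
    push Not at hlt
    have : 3 * q * (d + 1) ≤ 3 * q * (2 * (I + J)) := Nat.mul_le_mul_left _ hlt
    have e : 3 * q * (2 * (I + J)) = 2 * (3 * q * (I + J)) := by ring
    rw [mul_add] at this
    omega
  obtain ⟨e, rfl⟩ := Nat.exists_eq_add_of_le hde
  have he : 2 * (y + q * c0) = 3 * q * e + 1 := by
    have e2 : 3 * q * (2 * (I + J) + e) = 2 * (3 * q * (I + J)) + 3 * q * e := by ring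
    omega
  have he4 : e < 4 := by
    by_contra hlt
    push Not at hlt
    have : 3 * q * 4 ≤ 3 * q * e := Nat.mul_le_mul_left _ hlt
    have : q * c0 ≤ q * 2 := Nat.mul_le_mul_left _ (by omega)
    omega
  have hc00 : c0 ≠ 0 := by
    rintro rfl
    exact h4 ⟨J, by rw [hj]; ring⟩
  refine red hQ hi hj ?_
  interval_cases c0
  · exact absurd rfl hc00
  · interval_cases e
    · omega
    · exact ineq hQ 1 0 0 0 0 0 1 2 1 1 0 (by omega) (by omega) (by omega) (by omega) (by omega)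
        (by omega) (by omega) (by omega) (by omega) (by omega) (by omega) (by norm_num)
    · omega
    · omega
  · interval_cases e
    · omega
    · omega
    · omega
    · exact ineq hQ 2 1 0 2 1 0 4 4 5 3 1 (by omega) (by omega) (by omega) (by omega) (by omega)
        (by omega) (by omega) (by omega) (by omega) (by omega) (by omega) (by norm_num)

theorem t_T3 : S_T3 := by
  intro q i j hq h1 h2 hn h3
  obtain ⟨c, hc⟩ := h3
  have hQ : 0 < 3 * q := by omega
  obtain ⟨y, I, hy, hi⟩ : ∃ y I, y < 3 * q ∧ i = 3 * q * I + y :=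
    ⟨i % (3 * q), i / (3 * q), Nat.mod_lt _ hQ, (Nat.div_add_mod i (3 * q)).symm⟩
  obtain ⟨J, c0, hc0, hcJ⟩ : ∃ J c0, c0 < 3 ∧ c = 3 * J + c0 := ⟨c / 3, c % 3, by omega, by omega⟩
  have hj : j = 3 * q * J + q * c0 := by rw [hc, hcJ]; ring
  obtain ⟨d, hd⟩ := h2
  have hd1 : 6 * (q * (I + J)) + 2 * (y + q * c0) = q * d + 1 := by
    have : 2 * (i + j) = q * d + 1 := by omega
    rw [← this, hi, hj]; ring
  have hde : 6 * (I + J) ≤ d := by
    by_contra hlt
    push Not at hlt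
    have : q * (d + 1) ≤ q * (6 * (I + J)) := Nat.mul_le_mul_left _ hlt
    have e : q * (6 * (I + J)) = 6 * (q * (I + J)) := by ring
    rw [mul_add] at this
    omega
  obtain ⟨e, rfl⟩ := Nat.exists_eq_add_of_le hde
  have he : 2 * (y + q * c0) = q * e + 1 := by
    have e2 : q * (6 * (I + J) + e) = 6 * (q * (I + J)) + q * e := by ring
    omega
  have he12 : e < 12 := by
    by_contra hlt
    push Not at hlt
    have : q * 12 ≤ q * e := Nat.mul_le_mul_left _ hlt
    have : q * c0 ≤ q * 2 := Nat.mul_le_mul_left _ (by omega)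
    omega
  have he3 : ¬ 3 ∣ e := by
    rintro ⟨f, rfl⟩
    exact hn ⟨2 * (I + J) + f, by rw [hd]; ring⟩
  refine red hQ hi hj ?_
  interval_cases c0
  · interval_cases e
    · omega
    · exact ineq hQ 0 0 0 0 0 0 0 0 1 0 0 (by omega) (by omega) (by omega) (by omega) (by omega)
        (by omega) (by omega) (by omega) (by omega) (by omega) (by omega) (by norm_num)
    · omega
    · omega
    · omega
    · exact ineq hQ 0 0 0 2 1 0 2 0 5 1 0 (by omega) (by omega) (by omega) (by omega) (by omega)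
        (by omega) (by omega) (by omega) (by omega) (by omega) (by omega) (by norm_num)
    all_goals omega
  · interval_cases e
    · omega
    · omega
    · omega
    · omega
    · omega
    · exact ineq hQ 1 0 0 1 1 0 2 2 3 1 0 (by omega) (by omega) (by omega) (by omega) (by omega)
        (by omega) (by omega) (by omega) (by omega) (by omega) (by omega) (by norm_num)
    · omega
    · exact ineq hQ 1 0 0 2 1 0 3 2 5 2 1 (by omega) (by omega) (by omega) (by omega) (by omega)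
        (by omega) (by omega) (by omega) (by omega) (by omega) (by omega) (by norm_num)
    all_goals omega
  · interval_cases e
    · omega
    · omega
    · omega
    · omega
    · omega
    · exact ineq hQ 2 1 0 0 0 0 2 4 1 1 0 (by omega) (by omega) (by omega) (by omega) (by omega)
        (by omega) (by omega) (by omega) (by omega) (by omega) (by omega) (by norm_num)
    · omega
    · exact ineq hQ 2 1 0 1 1 0 3 4 3 2 1 (by omega) (by omega) (by omega) (by omega) (by omega)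
        (by omega) (by omega) (by omega) (by omega) (by omega) (by omega) (by norm_num)
    all_goals omega

end Pool.Agent.J4H62.CD
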