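import Pool.Agent.J4H62.CD.Stm

/-! Project CD, 2-adic part. -/

set_option autoImplicit false

namespace Pool.Agent.J4H62.CD

/-- binary digit sum -/
def s (n : ℕ) : ℕ := (Nat.digits 2 n).sum

theorem s_double (n : ℕ) : s (2 * n) = s n := by
  rcases Nat.eq_zero_or_pos n with h | h
  · subst h; rfl
  · unfold s
    rw [Nat.digits_def' (by norm_num) (by omega)]
    rw [show 2 * n % 2 = 0 by omega, show 2 * n / 2 = n by omega]
    simp

theorem s_pos {n : ℕ} (hn : 1 ≤ n) : 1 ≤ s n := by
  induction n using Nat.strong_induction_on with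
  | _ n ih =>
    rcases Nat.even_or_odd' n with ⟨m, hm | hm⟩
    · rw [hm, s_double]
      exact ih m (by omega) (by omega)
    · unfold s
      rw [Nat.digits_def' (by norm_num) (by omega), List.sum_cons]
      omega

theorem v_choose (n k : ℕ) (hk : k ≤ n) :
    padicValNat 2 (n.choose k) + s n = s k + s (n - k) := by
  have h := @sub_one_mul_padicValNat_choose_eq_sub_sum_digits 2 k n _ hk
  have h2 : s n ≤ s k + s (n - k) := by
    have h3 : padicValNat 2 (n.factorial) = padicValNat 2 (n.choose k) +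
        padicValNat 2 k.factorial + padicValNat 2 (n - k).factorial := by
      rw [← Nat.choose_mul_factorial_mul_factorial hk, padicValNat.mul, padicValNat.mul]
      · exact (Nat.choose_pos hk).ne'
      · exact Nat.factorial_ne_zero _
      · exact mul_ne_zero (Nat.choose_pos hk).ne' (Nat.factorial_ne_zero _)
      · exact Nat.factorial_ne_zero _
    have h4 := @sub_one_mul_padicValNat_factorial 2 _ n
    have h5 := @sub_one_mul_padicValNat_factorial 2 _ k
    have h6 := @sub_one_mul_padicValNat_factorial 2 _ (n - k)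
    have e1 := Nat.digit_sum_le 2 n
    have e2 := Nat.digit_sum_le 2 k
    have e3 := Nat.digit_sum_le 2 (n - k)
    unfold s
    omega
  unfold s at *
  omega

theorem a_ne (k : ℕ) : a k ≠ 0 :=
  mul_ne_zero (Nat.choose_pos (by omega)).ne' (Nat.choose_pos (by omega)).ne'

theorem v_a (k : ℕ) : padicValNat 2 (a k) = 2 * s k := by
  unfold a
  rw [padicValNat.mul (Nat.choose_pos (by omega)).ne' (Nat.choose_pos (by omega)).ne']
  have h1 := v_choose (6 * k) (3 * k) (by omega)
  have h2 := v_choose (3 * k) k (by omega)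
  rw [show 6 * k - 3 * k = 3 * k by omega, show 6 * k = 2 * (3 * k) by ring, s_double] at h1
  rw [show 3 * k - k = 2 * k by omega, s_double] at h2
  rw [show 6 * k = 2 * (3 * k) by ring]
  omega

theorem v_aa (i j : ℕ) : padicValNat 2 (a i * a j) = 2 * (s i + s j) := by
  rw [padicValNat.mul (a_ne i) (a_ne j), v_a, v_a]
  ring

theorem s_add (i j : ℕ) : s (i + j) ≤ s i + s j := by
  have h := v_choose (i + j) i (by omega)
  rw [Nat.add_sub_cancel_left] at h
  omega

/-- the convolution -/
def conv (n : ℕ) : ℕ := ∑ j ∈ Finset.range (n + 1), a j * a (n - j)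

theorem two_dvd (n : ℕ) (hn : 1 ≤ n) : 2 ^ (2 * s n + 1) ∣ conv n := by
  have hd : ∀ j, j ≤ n → 2 ^ (2 * s n) ∣ a j * a (n - j) := by
    intro j hj
    rw [padicValNat_dvd_iff_le (mul_ne_zero (a_ne _) (a_ne _)), v_aa]
    have := s_add j (n - j)
    rw [show j + (n - j) = n by omega] at this
    omega
  have hs := s_pos hn
  rw [← CharP.cast_eq_zero_iff (ZMod (2 ^ (2 * s n + 1))) (2 ^ (2 * s n + 1))]
  unfold conv
  rw [Nat.cast_sum]
  refine Finset.sum_involution (fun j _ => n - j) ?_ ?_ ?_ ?_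
  · intro j hj
    rw [Finset.mem_range] at hj
    rw [← Nat.cast_add, CharP.cast_eq_zero_iff (ZMod (2 ^ (2 * s n + 1))) (2 ^ (2 * s n + 1))]
    rw [show n - (n - j) = j by omega, mul_comm (a (n - j)), ← two_mul, pow_succ, mul_comm]
    exact mul_dvd_mul_left 2 (hd j (by omega))
  · intro j hj hne heq
    apply hne
    rw [Finset.mem_range] at hj
    rw [CharP.cast_eq_zero_iff (ZMod (2 ^ (2 * s n + 1))) (2 ^ (2 * s n + 1))]
    rw [padicValNat_dvd_iff_le (mul_ne_zero (a_ne _) (a_ne _)), v_aa]
    have h1 : n - j = j := heq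
    have h2 : s n = s j := by
      rw [show n = 2 * j by omega, s_double]
    rw [h1]
    omega
  · intro j hj
    rw [Finset.mem_range] at hj ⊢
    omega
  · intro j hj
    rw [Finset.mem_range] at hj
    show n - (n - j) = j
    omega

theorem s_three {n : ℕ} (hn : 1 ≤ n) : 2 ≤ s (3 * n) := by
  induction n using Nat.strong_induction_on with
  | _ n ih =>
    rcases Nat.even_or_odd' n with ⟨m, hm | hm⟩
    · rw [hm, show 3 * (2 * m) = 2 * (3 * m) by ring, s_double]
      exact ih m (by omega) (by omega)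
    · have h1 : s (3 * n) = 1 + s (3 * m + 1) := by
        unfold s
        rw [Nat.digits_def' (by norm_num) (by omega), List.sum_cons,
          show 3 * n % 2 = 1 by omega, show 3 * n / 2 = 3 * m + 1 by omega]
      rw [h1]
      have := s_pos (n := 3 * m + 1) (by omega)
      omega

theorem v_den (n : ℕ) (hn : 1 ≤ n) :
    padicValNat 2 ((2 * n - 1) * (3 * n).choose n) + s (3 * n) = 2 * s n := by
  rw [padicValNat.mul (by omega) (Nat.choose_pos (by omega)).ne',
    padicValNat.eq_zero_of_not_dvd (by omega : ¬ 2 ∣ 2 * n - 1)]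
  have h2 := v_choose (3 * n) n (by omega)
  rw [show 3 * n - n = 2 * n by omega, s_double] at h2
  omega

/-- the assembly -/
theorem main (hDIV : S_DIV) (n : ℕ) (hn : 1 ≤ n) :
    2 ^ (s (3 * n) + 1) * ((2 * n - 1) * (3 * n).choose n) ∣ conv n := by
  have hD0 : (2 * n - 1) * (3 * n).choose n ≠ 0 :=
    mul_ne_zero (by omega) (Nat.choose_pos (by omega)).ne'
  set D : ℕ := (2 * n - 1) * (3 * n).choose n with hD
  have hv := v_den n hn
  rw [← hD] at hv
  have hdv : D ∣ conv n := by
    unfold conv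
    refine Finset.dvd_sum fun j hj => ?_
    rw [Finset.mem_range] at hj
    have := hDIV j (n - j) (by omega)
    rwa [show j + (n - j) = n by omega] at this
  -- odd part
  have hodd : D = 2 ^ padicValNat 2 D * (D / 2 ^ padicValNat 2 D) :=
    (Nat.mul_div_cancel' pow_padicValNat_dvd).symm
  set v : ℕ := padicValNat 2 D with hvdef
  set O : ℕ := D / 2 ^ v with hO
  have hO2 : ¬ 2 ∣ O := by
    intro h
    have h3 : 2 ^ (v + 1) ∣ D := by
      rw [hodd, pow_succ]
      exact mul_dvd_mul_left _ h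
    rw [padicValNat_dvd_iff_le hD0] at h3
    omega
  have hcop : Nat.Coprime (2 ^ (2 * s n + 1)) O :=
    Nat.Coprime.pow_left _ ((Nat.Prime.coprime_iff_not_dvd Nat.prime_two).2 hO2)
  have h5 : 2 ^ (2 * s n + 1) * O ∣ conv n :=
    hcop.mul_dvd_of_dvd_of_dvd (two_dvd n hn) ((Dvd.intro_left _ hodd.symm).trans hdv)
  have h6 : 2 ^ (s (3 * n) + 1) * D = 2 ^ (2 * s n + 1) * O := by
    rw [hodd, ← mul_assoc, ← pow_add, ← hv]
    congr 2
    omega
  rw [h6]
  exact h5

theorem main8 (hDIV : S_DIV) (n : ℕ) (hn : 1 ≤ n) :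
    8 * (2 * n - 1) * (3 * n).choose n ∣ conv n := by
  refine Dvd.dvd.trans ?_ (main hDIV n hn)
  rw [mul_assoc]
  refine mul_dvd_mul_right ?_ _
  have := s_three hn
  exact pow_dvd_pow 2 (show 3 ≤ s (3 * n) + 1 by omega)

end Pool.Agent.J4H62.CD
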